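import Pool.Agent.Helper14_DK.Stmts

set_option autoImplicit false

/-! Squad DK: modules LIP and PIECE. -/

namespace Pool.Agent.DK.H7

open MeasureTheory Complex Set Metric Filter
open scoped ContDiff Topology

theorem lip : LipStmt := by
  intro n _ ρ κ₀ h
  have h1 : ContDiff ℝ ∞ (fun z => 1 - ρ z) := contDiff_const.sub h.smooth
  obtain ⟨C, hC⟩ := ContDiff.lipschitzWith_of_hasCompactSupport h.cpt h1 (by simp)
  refine ⟨max 1 C, le_max_left _ _, fun z w => ?_⟩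
  have h2 := hC.dist_le_mul z w
  rw [Real.dist_eq, dist_eq_norm] at h2
  have h3 : |ρ z - ρ w| = |(1 - ρ z) - (1 - ρ w)| := by
    rw [abs_sub_comm]; congr 1; ring
  rw [h3]
  exact h2.trans (mul_le_mul_of_nonneg_right (le_max_right _ _) (norm_nonneg _))

theorem contDiff_nsq' {n : ℕ} (p : E n) : ContDiff ℝ ∞ (fun z : E n => nsq (z - p)) := by
  unfold nsq
  refine ContDiff.sum fun j _ => ?_
  have h : ContDiff ℝ ∞ (fun z : E n => (z - p) j) := by
    have : (fun z : E n => (z - p) j) = fun z => z j - p j := rfl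
    rw [this]
    exact (contDiff_apply ℝ ℂ j).sub contDiff_const
  exact (contDiff_norm_sq ℝ).comp h

theorem contDiff_phi {n : ℕ} {ρ : E n → ℝ} (hρ : ContDiff ℝ ∞ ρ) (κ Λ : ℝ) (p : E n) :
    ContDiff ℝ ∞ (phi ρ κ Λ p) := by
  unfold phi
  exact hρ.sub (contDiff_const.mul ((contDiff_const.mul (contDiff_nsq' p)).neg.exp))

theorem piece (h1 : Pc1Stmt) (h2 : Pc2Stmt) : PieceStmt := by
  intro n hn ρ κ₀ hN
  obtain ⟨Λ, h₀, κ₁, C, hΛ, hh₀, hκ₁, hκ, hC, H⟩ := h1 n hn ρ κ₀ hN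
  refine ⟨Λ, h₀, κ₁, hΛ, hh₀, hκ₁, hκ, fun p h κ hh hhh hk hkk => ?_⟩
  have he : 0 < Real.exp (-(Λ * h ^ 2)) := Real.exp_pos _
  refine h2 n (phi ρ κ Λ p) p h (κ * Real.exp (-(Λ * h ^ 2))) (C * κ * Real.exp (-(Λ * h ^ 2))) C
    (contDiff_phi hN.smooth κ Λ p) hh (by positivity) (by positivity) hC ?_
  intro z hz hm hz0 w
  have hw : 0 ≤ nsq w := Finset.sum_nonneg fun j _ => sq_nonneg _
  have hexp : Real.exp (-(Λ * h ^ 2)) ≤ Real.exp (-(Λ * nsq (z - p))) :=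
    Real.exp_le_exp.2 (neg_le_neg (mul_le_mul_of_nonneg_left hz hΛ.le))
  have hρ : 0 ≤ ρ z := by
    have h3 : phi ρ κ Λ p z = ρ z - κ * Real.exp (-(Λ * nsq (z - p))) := rfl
    have h4 := mul_le_mul_of_nonneg_left hexp hk.le
    linarith
  have h5 := H p h κ hh hhh hk hkk z hz hρ hz0 w
  have h6 : C * κ * Real.exp (-(Λ * h ^ 2)) * nsq w ≤
      C * κ * Real.exp (-(Λ * nsq (z - p))) * nsq w :=
    mul_le_mul_of_nonneg_right (mul_le_mul_of_nonneg_left hexp (by positivity)) hw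
  linarith

end Pool.Agent.DK.H7
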